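import Pool.Agent.Helper82.CN.St

/-!
# CN, module HVB: `ln M_v` below `α₀`
-/

set_option autoImplicit false

namespace Pool.Agent.Helper85.CN

open Finset Pool.Agent.Helper82.CN

lemma cast_choose_two_HVB (v : ℕ) : ((v.choose 2 : ℕ) : ℝ) = (v : ℝ) * (v - 1) / 2 := by
  rw [Nat.cast_choose_two]

lemma bb_pos_HVB {p : ℝ} (h0 : 0 < p) (h1 : p < 1) : 0 < bb p :=
  Real.log_pos (one_lt_one_div (by linarith) (by linarith))

/-- HVB -/
theorem tHVB : StHvb := by
  intro p K hp0 hp1 hK
  have hβ : 0 < bb p := bb_pos_HVB hp0 hp1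
  have htend : Filter.Tendsto (fun n : ℕ => Real.log (Real.log (n : ℝ))) Filter.atTop Filter.atTop :=
    Real.tendsto_log_atTop.comp (Real.tendsto_log_atTop.comp tendsto_natCast_atTop_atTop)
  obtain ⟨n0, hn0⟩ := Filter.eventually_atTop.1
    (htend.eventually_ge_atTop (|3 / 2 * Real.log (bb p)| + 3 / 4 * K * bb p))
  refine ⟨max n0 3, fun n t v hn ht hv1 hvt => ⟨?_, fun h2v => ?_⟩⟩
  · have h1 : Real.log (v.factorial : ℝ) ≤ v * Real.log v := by
      have h2 : ((v.factorial : ℕ) : ℝ) ≤ (v : ℝ) ^ v := by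
        exact_mod_cast Nat.factorial_le_pow v
      have h3 : (0 : ℝ) < ((v.factorial : ℕ) : ℝ) := by exact_mod_cast v.factorial_pos
      calc Real.log (v.factorial : ℝ) ≤ Real.log ((v : ℝ) ^ v) := Real.log_le_log h3 h2
        _ = v * Real.log v := Real.log_pow _ _
    have hv0 : (0 : ℝ) ≤ v := Nat.cast_nonneg v
    unfold hv
    rw [cast_choose_two_HVB]
    have h4 : (v : ℝ) * (v - 1) / 2 * bb p ≤ (v : ℝ) * (v * bb p / 2) := by nlinarith
    nlinarith
  · have hn1 : n0 ≤ n := le_trans (le_max_left _ _) hn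
    have hn3 : 3 ≤ n := le_trans (le_max_right _ _) hn
    have hL := hn0 n hn1
    have hlam : 0 < Real.log (n : ℝ) := Real.log_pos (by exact_mod_cast (by omega : 1 < n))
    have hfac : Real.log (v.factorial : ℝ) ≤ Real.log (t.factorial : ℝ) := by
      apply Real.log_le_log (by exact_mod_cast v.factorial_pos)
      exact_mod_cast Nat.factorial_le hvt
    have hlog2 : Real.log 2 ≤ 1 := by have := Real.log_two_lt_d9; linarith
    have hvt' : (v : ℝ) ≤ t := by exact_mod_cast hvt
    have h2v' : (t : ℝ) ≤ 2 * v := by exact_mod_cast h2v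
    have hal : al p n * bb p = 2 * Real.log n - 2 * (Real.log (Real.log n) - Real.log (bb p)) +
        2 * (1 - Real.log 2) + bb p := by
      unfold al
      rw [Real.log_div hlam.ne' hβ.ne']
      field_simp
    have ht1 : al p n - K ≤ t := by
      have := (abs_le.1 ht).1
      linarith
    have htβ : al p n * bb p - K * bb p ≤ t * bb p := by
      have := mul_le_mul_of_nonneg_right ht1 hβ.le
      linarith
    have habs : -|3 / 2 * Real.log (bb p)| ≤ 3 / 2 * Real.log (bb p) := neg_abs_le _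
    have hKβ : 0 < K * bb p := mul_pos hK hβ
    have habs0 : 0 ≤ |3 / 2 * Real.log (bb p)| := abs_nonneg _
    have hkey : 3 / 2 * Real.log n - 4 * Real.log (Real.log n) ≤
        ((t : ℝ) + v - 1) * bb p / 2 := by
      have h5 : (3 / 2 * (t : ℝ) - 1) * bb p / 2 ≤ ((t : ℝ) + v - 1) * bb p / 2 := by
        have : (3 / 2 * (t : ℝ) - 1) ≤ ((t : ℝ) + v - 1) := by linarith
        have := mul_le_mul_of_nonneg_right this hβ.le
        linarith
      refine le_trans ?_ h5
      nlinarith
    have hj : 0 ≤ (t : ℝ) - v := by linarith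
    have h6 := mul_le_mul_of_nonneg_left hkey hj
    unfold hv
    rw [cast_choose_two_HVB, cast_choose_two_HVB]
    nlinarith

end Pool.Agent.Helper85.CN
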